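import Pool.Agent.Y836.UK.GB
import Pool.Agent.Y836.UK.Iso

/-!
# Universally Koszul algebras that are not G-quadratic, in every embedding dimension

For `b : Fin n → K` let `JB b` be the ideal of `K[x_1, …, x_n]` generated by all `x_i x_j` with
`i ≠ j` and all `b_j x_i ^ 2 - b_i x_j ^ 2`. If at least two of the `b_i` are nonzero, then the
quotient has the Hilbert function `1, n, 1`; the product of two linear forms `v`, `w` is
`∑ b_i v_i w_i` times a generator of the socle. All these algebras are universally Koszul, and such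
an algebra is G-quadratic if and only if the quadratic form `∑ b_i t_i ^ 2` has an isotropic vector
outside its radical. So over a field with an element that is not a square there are universally
Koszul algebras of every embedding dimension `n ≥ 2` that are not G-quadratic, and over all other
fields all the algebras of this family are G-quadratic.
-/

set_option autoImplicit false

namespace Pool.Agent.Results.MP_8dd27d_al.AnisotropicForms

open Pool.Agent.Results.MP_8dd27d_al.Disproof Pool.Agent.Y836.UK MvPolynomial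

universe u w

/-- The quadratic form `∑ b_i t_i ^ 2` has an isotropic vector `t` outside its radical (the radical
of the bilinear form `∑ b_i v_i w_i` consists of the vectors `t` with `b_i t_i = 0` for all `i`). -/
def Isotropic {K : Type u} [Field K] {n : ℕ} (b : Fin n → K) : Prop :=
  ∃ t : Fin n → K, ∑ i, b i * t i ^ 2 = 0 ∧ ∃ i, b i * t i ≠ 0

/-- At least two of the coefficients are nonzero. -/
def TwoNonzero {K : Type u} [Field K] {n : ℕ} (b : Fin n → K) : Prop :=
  ∃ i j : Fin n, i ≠ j ∧ b i ≠ 0 ∧ b j ≠ 0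

lemma exists_anisotropic {K : Type u} [Field K] {c : K} (hns : ¬ IsSquare c) {n : ℕ}
    (hn : 2 ≤ n) : ∃ b : Fin n → K, TwoNonzero b ∧ ¬ Isotropic b := by
  have hc : c ≠ 0 := by
    rintro rfl
    exact hns ⟨0, by simp⟩
  obtain ⟨m, rfl⟩ : ∃ m, n = m + 2 := ⟨n - 2, by omega⟩
  let b : Fin (m + 2) → K := Fin.cons (-c) (Fin.cons 1 fun _ => 0)
  have hb0 : b 0 = -c := rfl
  have hb1 : b 1 = 1 := rfl
  have hb2 : ∀ i : Fin m, b i.succ.succ = 0 := fun i => rfl
  refine ⟨b, ⟨0, 1, by simp, ?_, ?_⟩, ?_⟩
  · rw [hb0]; exact neg_ne_zero.2 hc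
  · rw [hb1]; exact one_ne_zero
  rintro ⟨t, ht, i, hi⟩
  apply hi
  have h1 : (Fin.succ 0 : Fin (m + 2)) = 1 := rfl
  rw [Fin.sum_univ_succ, Fin.sum_univ_succ, h1, hb0, hb1] at ht
  simp only [hb2, zero_mul, Finset.sum_const_zero, add_zero, one_mul] at ht
  have h0 : t 0 = 0 := by
    by_contra hne
    apply hns
    refine ⟨t 1 / t 0, ?_⟩
    field_simp
    linear_combination -ht
  have h3 : t 1 = 0 := by
    rw [h0] at ht
    simpa using ht
  clear hi
  refine Fin.cases ?_ (fun i => Fin.cases ?_ (fun i => ?_) i) i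
  · rw [h0, mul_zero]
  · rw [h1, h3, mul_zero]
  · rw [hb2, zero_mul]

lemma isotropic_of_squares {K : Type u} [Field K] (hsq : ∀ c : K, IsSquare c) {n : ℕ}
    (b : Fin n → K) (h2 : TwoNonzero b) : Isotropic b := by
  classical
  obtain ⟨i, j, hij, hi, hj⟩ := h2
  obtain ⟨r, hr⟩ := hsq (-(b j / b i))
  refine ⟨Pi.single i r + Pi.single j 1, ?_, j, ?_⟩
  · have h3 : ∀ k, b k * (Pi.single i r + Pi.single j 1 : Fin n → K) k ^ 2 =
        (Pi.single i (b i * r ^ 2) : Fin n → K) k + (Pi.single j (b j) : Fin n → K) k := by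
      intro k
      rw [Pi.add_apply]
      by_cases hki : k = i
      · subst hki
        rw [Pi.single_eq_same, Pi.single_eq_same, Pi.single_eq_of_ne hij, Pi.single_eq_of_ne hij,
          add_zero, add_zero]
      · rw [Pi.single_eq_of_ne hki, Pi.single_eq_of_ne hki, zero_add, zero_add]
        by_cases hkj : k = j
        · subst hkj
          rw [Pi.single_eq_same, Pi.single_eq_same, one_pow, mul_one]
        · rw [Pi.single_eq_of_ne hkj, Pi.single_eq_of_ne hkj]
          ring
    rw [Finset.sum_congr rfl fun k _ => h3 k, Finset.sum_add_distrib, Finset.sum_pi_single',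
      Finset.sum_pi_single', if_pos (Finset.mem_univ _), if_pos (Finset.mem_univ _)]
    rw [pow_two, ← hr]
    field_simp
    ring
  · rw [Pi.add_apply, Pi.single_eq_of_ne hij.symm, Pi.single_eq_same, zero_add, mul_one]
    exact hj

/-- **Universally Koszul algebras with Hilbert function `1, n, 1`.** Let `K` be a field.

1. If at least two of the coefficients `b_1, …, b_n` are nonzero, then the algebra
   `K[x_1, …, x_n] / JB b` is standard graded and universally Koszul. It is G-quadratic if and only
   if the quadratic form `∑ b_i t_i ^ 2` has an isotropic vector outside its radical.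
2. For every `n ≥ 2` this family contains an algebra with `n` variables that is not G-quadratic if
   and only if `K` has an element which is not a square.
3. If `K` has an element which is not a square, then for every `n ≥ 2` there is a universally
   Koszul algebra of embedding dimension `n` over `K` that is not G-quadratic. -/
theorem result (K : Type u) [Field K] :
    (∀ (n : ℕ) (b : Fin n → K), TwoNonzero b →
      IsStandard (JB b) ∧ UniversallyKoszul (JB b) ∧ (GQuadratic.{u, 0} (JB b) ↔ Isotropic b) ∧
        (¬ Isotropic b → ¬ GQuadratic.{u, w} (JB b))) ∧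
    (∀ n : ℕ, 2 ≤ n → ((∃ b : Fin n → K, TwoNonzero b ∧ ¬ GQuadratic.{u, 0} (JB b)) ↔
      ∃ c : K, ¬ IsSquare c)) ∧
    ((∃ c : K, ¬ IsSquare c) → ∀ n : ℕ, 2 ≤ n → ∃ J : Ideal (MvPolynomial (Fin n) K),
      IsStandard J ∧ UniversallyKoszul J ∧ ¬ GQuadratic.{u, w} J) := by
  have han : ∀ {n : ℕ} {b : Fin n → K}, ¬ Isotropic b →
      ∀ t : Fin n → K, ∑ i, b i * t i ^ 2 = 0 → ∀ i, b i * t i = 0 := by
    intro n b h t ht i
    by_contra hne
    exact h ⟨t, ht, i, hne⟩
  have hiff : ∀ {n : ℕ} {b : Fin n → K}, TwoNonzero b →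
      (GQuadratic.{u, 0} (JB b) ↔ Isotropic b) := by
    intro n b h2
    constructor
    · intro h
      by_contra hne
      exact not_gQuadratic h2 (han hne) h
    · rintro ⟨t, ht, i, hi⟩
      exact gQuadratic_of_isotropic h2 t ht i hi
  refine ⟨fun n b h2 => ⟨JB_standard, universallyKoszul_JB h2, hiff h2, fun h =>
    not_gQuadratic h2 (han h)⟩, fun n hn => ⟨?_, ?_⟩, ?_⟩
  · rintro ⟨b, h2, hb⟩
    by_contra hcon
    push Not at hcon
    exact hb ((hiff h2).2 (isotropic_of_squares hcon b h2))
  · rintro ⟨c, hc⟩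
    obtain ⟨b, h2, hb⟩ := exists_anisotropic hc hn
    exact ⟨b, h2, fun h => hb ((hiff h2).1 h)⟩
  · rintro ⟨c, hc⟩ n hn
    obtain ⟨b, h2, hb⟩ := exists_anisotropic hc hn
    exact ⟨JB b, JB_standard, universallyKoszul_JB h2, not_gQuadratic h2 (han hb)⟩

end Pool.Agent.Results.MP_8dd27d_al.AnisotropicForms
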